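import Pool.Agent.Q109.RC.Stm

namespace Q224.RC

open Finset Q109.RC

/-- The truncated geometric transform. -/
noncomputable def ph (p : ℝ) (G : ℕ) (z : ℂ) : ℂ :=
  ∑ g ∈ Icc 1 G, ((p * (1 - p) ^ (g - 1) : ℝ) : ℂ) * z ^ g

theorem sum_Icc_one {M : Type*} [AddCommMonoid M] (f : ℕ → M) (G : ℕ) :
    ∑ g ∈ Icc 1 G, f g = ∑ g ∈ range G, f (g + 1) := by
  rw [Finset.sum_bij (fun (g : ℕ) (_ : g ∈ Icc 1 G) => g - 1) (t := range G)
    (g := fun g => f (g + 1))]
  · intro a ha
    rw [mem_Icc] at ha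
    rw [mem_range]
    omega
  · intro a ha b hb hab
    rw [mem_Icc] at ha hb
    omega
  · intro b hb
    rw [mem_range] at hb
    exact ⟨b + 1, by rw [mem_Icc]; omega, by simp⟩
  · intro a ha
    rw [mem_Icc] at ha
    congr 1
    omega

theorem geo (p : ℝ) (n : ℕ) : ∑ g ∈ range n, p * (1 - p) ^ g = 1 - (1 - p) ^ n := by
  rw [← mul_sum]
  have h := geom_sum_mul_neg (1 - p) n
  rw [sub_sub_cancel] at h
  rw [mul_comm]
  exact h

theorem ph_le_one (p : ℝ) (h0 : 0 < p) (h1 : p < 1) (G : ℕ) (z : ℂ) (hz : ‖z‖ = 1) :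
    ‖ph p G z‖ ≤ 1 := by
  unfold ph
  rw [sum_Icc_one]
  have hq : 0 ≤ 1 - p := by linarith
  calc ‖∑ g ∈ range G, ((p * (1 - p) ^ (g + 1 - 1) : ℝ) : ℂ) * z ^ (g + 1)‖
      ≤ ∑ g ∈ range G, p * (1 - p) ^ g := by
        refine norm_sum_le_of_le _ fun g _ => ?_
        rw [norm_mul, norm_pow, hz, one_pow, mul_one, Complex.norm_real, Real.norm_eq_abs,
          Nat.add_sub_cancel, abs_of_nonneg (by positivity)]
    _ = 1 - (1 - p) ^ G := geo p G
    _ ≤ 1 := by
        have : 0 ≤ (1 - p) ^ G := by positivity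
        linarith

/-- The contraction factor. -/
noncomputable def rho (p : ℝ) : ℝ := (1 - p) ^ 2 + p * Real.sqrt (1 + (1 - p) + (1 - p) ^ 2)

theorem rho_lt (p : ℝ) (h0 : 0 < p) (h1 : p < 1) : rho p < 1 := by
  unfold rho
  have hq : 0 < 1 - p := by linarith
  have h2 : Real.sqrt (1 + (1 - p) + (1 - p) ^ 2) < 1 + (1 - p) := by
    rw [Real.sqrt_lt' (by linarith)]
    nlinarith
  have h3 : p * Real.sqrt (1 + (1 - p) + (1 - p) ^ 2) < p * (1 + (1 - p)) :=
    mul_lt_mul_of_pos_left h2 h0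
  nlinarith

theorem rho_pos (p : ℝ) (h0 : 0 < p) : 0 < rho p := by
  unfold rho
  have h2 : 0 < Real.sqrt (1 + (1 - p) + (1 - p) ^ 2) := Real.sqrt_pos.2 (by nlinarith)
  positivity

theorem ph_le_rho (p : ℝ) (h0 : 0 < p) (h1 : p < 1) (G : ℕ) (z : ℂ) (hz : ‖z‖ = 1)
    (hre : z.re ≤ 1 / 2) : ‖ph p G z‖ ≤ rho p := by
  have hq : 0 < 1 - p := by linarith
  have hsq1 : 1 ≤ Real.sqrt (1 + (1 - p) + (1 - p) ^ 2) := by
    rw [Real.one_le_sqrt]
    nlinarith
  have hprho : p ≤ rho p := by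
    unfold rho
    nlinarith [sq_nonneg (1 - p)]
  unfold ph
  rw [sum_Icc_one]
  rcases G with _ | _ | n
  · simp
    exact (rho_pos p h0).le
  · simp [hz]
    rw [abs_of_pos h0]
    exact hprho
  · rw [sum_range_succ', sum_range_succ']
    have hz2 : z.re ^ 2 + z.im ^ 2 = 1 := by
      have h := Complex.sq_norm z
      rw [hz, Complex.normSq_apply] at h
      nlinarith
    have e1 : ∀ g ∈ range n, ‖((p * (1 - p) ^ (g + 1 + 1 + 1 - 1) : ℝ) : ℂ) * z ^ (g + 1 + 1 + 1)‖
        ≤ (1 - p) ^ 2 * (p * (1 - p) ^ g) := by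
      intro g _
      rw [norm_mul, norm_pow, hz, one_pow, mul_one, Complex.norm_real, Real.norm_eq_abs,
        Nat.add_sub_cancel, abs_of_nonneg (by positivity)]
      apply le_of_eq
      ring
    have e2 : ‖∑ g ∈ range n, ((p * (1 - p) ^ (g + 1 + 1 + 1 - 1) : ℝ) : ℂ)
        * z ^ (g + 1 + 1 + 1)‖ ≤ (1 - p) ^ 2 := by
      refine (norm_sum_le_of_le _ e1).trans ?_
      rw [← mul_sum, geo]
      have : 0 ≤ (1 - p) ^ n := by positivity
      nlinarith [sq_nonneg (1 - p)]
    have e3 : ((p * (1 - p) ^ (0 + 1 + 1 - 1) : ℝ) : ℂ) * z ^ (0 + 1 + 1)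
        + ((p * (1 - p) ^ (0 + 1 - 1) : ℝ) : ℂ) * z ^ (0 + 1)
        = (p : ℂ) * (z * (1 + ((1 - p : ℝ) : ℂ) * z)) := by
      push_cast
      ring
    have e4 : ‖(p : ℂ) * (z * (1 + ((1 - p : ℝ) : ℂ) * z))‖
        ≤ p * Real.sqrt (1 + (1 - p) + (1 - p) ^ 2) := by
      rw [norm_mul, norm_mul, hz, one_mul, Complex.norm_real, Real.norm_eq_abs, abs_of_pos h0]
      apply mul_le_mul_of_nonneg_left _ h0.le
      apply Real.le_sqrt_of_sq_le
      rw [Complex.sq_norm, Complex.normSq_apply]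
      simp only [Complex.add_re, Complex.one_re, Complex.re_ofReal_mul, Complex.add_im,
        Complex.one_im, Complex.im_ofReal_mul]
      nlinarith
    rw [add_assoc, e3]
    unfold rho
    exact (norm_add_le _ _).trans (add_le_add e2 e4)

/-- The values of a nontrivial character have negative real part often. -/
theorem many (k : ℕ) (x : ZMod (k + 1)) (hx : x ≠ 0) :
    (k : ℝ) + 1 ≤ 3 * ((univ : Finset (Fin k)).filter (fun i : Fin k =>
      (ZMod.stdAddChar (x * (((i : ℕ) + 1 : ℕ) : ZMod (k + 1))) : ℂ).re ≤ 1 / 2)).card := by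
  set c : ZMod (k + 1) → ℂ := fun y => ZMod.stdAddChar (x * y) with hc
  have h1 : ∑ y : ZMod (k + 1), c y = 0 := by
    have h := AddChar.sum_mulShift (ψ := (ZMod.stdAddChar : AddChar (ZMod (k + 1)) ℂ)) x
      (ZMod.isPrimitive_stdAddChar (k + 1))
    rw [if_neg hx] at h
    simp only [hc]
    simp_rw [mul_comm x]
    rw [h]
    simp
  have h2 : ∑ y : ZMod (k + 1), c y = ∑ j ∈ range (k + 1), c (j : ZMod (k + 1)) := by
    rw [Finset.sum_range]
    refine Finset.sum_congr rfl fun y _ => ?_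
    congr 1
    exact (ZMod.natCast_zmod_val y).symm
  rw [h2, sum_range_succ'] at h1
  have h3 : c ((0 : ℕ) : ZMod (k + 1)) = 1 := by simp [hc]
  rw [h3, Finset.sum_range] at h1
  have h4 := congrArg Complex.re h1
  rw [Complex.add_re, Complex.re_sum, Complex.one_re, Complex.zero_re] at h4
  set S := (univ : Finset (Fin k)).filter (fun i : Fin k =>
      (ZMod.stdAddChar (x * (((i : ℕ) + 1 : ℕ) : ZMod (k + 1))) : ℂ).re ≤ 1 / 2) with hS
  have hnorm : ∀ y, ‖c y‖ = 1 := by
    intro y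
    simp only [hc]
    rw [ZMod.stdAddChar_apply]
    exact Circle.norm_coe _
  have h5 : ∀ i : Fin k, (if i ∈ S then (-1 : ℝ) else 1 / 2)
      ≤ (c (((i : ℕ) + 1 : ℕ) : ZMod (k + 1))).re := by
    intro i
    split_ifs with h
    · have := Complex.abs_re_le_norm (c (((i : ℕ) + 1 : ℕ) : ZMod (k + 1)))
      rw [hnorm] at this
      exact (abs_le.1 this).1
    · rw [hS, mem_filter] at h
      push Not at h
      exact (h (mem_univ _)).le
  have h6 := Finset.sum_le_sum (s := (univ : Finset (Fin k))) fun i _ => h5 i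
  rw [Finset.sum_ite] at h6
  simp only [sum_const, nsmul_eq_mul, filter_univ_mem] at h6
  have h7 : ((univ.filter (fun i => i ∉ S)).card : ℝ) = k - S.card := by
    have h8 : (univ.filter (fun i => i ∉ S)) = Sᶜ := by ext; simp
    rw [h8, card_compl, Fintype.card_fin, Nat.cast_sub]
    simpa using card_le_univ S
  rw [h7] at h6
  linarith

theorem char_sum {ι : Type*} {n : ℕ} (ψ : AddChar (ZMod n) ℂ) (s : Finset ι) (f : ι → ZMod n) :
    ψ (∑ i ∈ s, f i) = ∏ i ∈ s, ψ (f i) := by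
  classical
  induction s using Finset.induction_on with
  | empty => simp
  | insert a s ha ih => rw [Finset.sum_insert ha, Finset.prod_insert ha, AddChar.map_add_eq_mul, ih]

/-- The Fourier bound. -/
theorem fou : S_Fou := by
  classical
  intro p h0 h1
  have hρ1 := rho_lt p h0 h1
  have hρ0 := rho_pos p h0
  refine ⟨1 + 3 / (1 - rho p), by
    have : 0 < 1 - rho p := by linarith
    positivity, ?_⟩
  intro k G d
  have hm : (0 : ℝ) < (k : ℝ) + 1 := by positivity
  have hmc : ((k : ℂ) + 1) ≠ 0 := by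
    have : ((k : ℂ) + 1) = ((k + 1 : ℕ) : ℂ) := by push_cast; ring
    rw [this]
    exact_mod_cast Nat.succ_ne_zero k
  set χ : AddChar (ZMod (k + 1)) ℂ := ZMod.stdAddChar with hχ
  set W : (Fin k → ℕ) → ℝ := fun g => ∏ i : Fin k, (p * (1 - p) ^ (g i - 1)) with hW
  set N : (Fin k → ℕ) → ℤ := fun g => d + ∑ i : Fin k, (((i : ℕ) : ℤ) + 1) * (g i : ℤ) with hN
  -- the identity
  have horth : ∀ a : ℤ, ∑ x : ZMod (k + 1), χ (x * (a : ZMod (k + 1)))
      = if ((k : ℤ) + 1) ∣ a then ((k : ℂ) + 1) else 0 := by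
    intro a
    rw [AddChar.sum_mulShift (ψ := χ) (a : ZMod (k + 1)) (ZMod.isPrimitive_stdAddChar (k + 1))]
    have h2 : ((a : ZMod (k + 1)) = 0) ↔ ((k : ℤ) + 1) ∣ a := by
      rw [ZMod.intCast_zmod_eq_zero_iff_dvd]
      push_cast
      rfl
    by_cases h : ((k : ℤ) + 1) ∣ a
    · rw [if_pos (h2.2 h), if_pos h, ZMod.card]
      push_cast
      ring
    · rw [if_neg (fun h' => h (h2.1 h')), if_neg h]
      simp
  have hchar : ∀ (x : ZMod (k + 1)) (g : Fin k → ℕ), χ (x * ((N g : ℤ) : ZMod (k + 1)))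
      = χ (x * (d : ZMod (k + 1))) *
        ∏ i : Fin k, χ (x * (((i : ℕ) + 1 : ℕ) : ZMod (k + 1))) ^ g i := by
    intro x g
    have h2 : x * ((N g : ℤ) : ZMod (k + 1)) = x * (d : ZMod (k + 1)) +
        ∑ i : Fin k, g i • (x * (((i : ℕ) + 1 : ℕ) : ZMod (k + 1))) := by
      simp only [hN]
      push_cast
      rw [mul_add, mul_sum]
      congr 1
      refine Finset.sum_congr rfl fun i _ => ?_
      rw [nsmul_eq_mul]
      ring
    rw [h2, AddChar.map_add_eq_mul, char_sum]
    congr 1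
    refine Finset.prod_congr rfl fun i _ => ?_
    rw [AddChar.map_nsmul_eq_pow]
  have hid : ((k : ℂ) + 1) * ((∑ g ∈ (Fintype.piFinset (fun _ : Fin k => Icc 1 G)).filter
      (fun g => ((k : ℤ) + 1) ∣ N g), W g : ℝ) : ℂ)
      = ∑ x : ZMod (k + 1), χ (x * (d : ZMod (k + 1))) *
        ∏ i : Fin k, ph p G (χ (x * (((i : ℕ) + 1 : ℕ) : ZMod (k + 1)))) := by
    have h2 : ∀ x : ZMod (k + 1), χ (x * (d : ZMod (k + 1))) *
        ∏ i : Fin k, ph p G (χ (x * (((i : ℕ) + 1 : ℕ) : ZMod (k + 1))))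
        = ∑ g ∈ Fintype.piFinset (fun _ : Fin k => Icc 1 G),
            ((W g : ℝ) : ℂ) * χ (x * ((N g : ℤ) : ZMod (k + 1))) := by
      intro x
      unfold ph
      rw [Finset.prod_univ_sum, mul_sum]
      refine Finset.sum_congr rfl fun g _ => ?_
      rw [hchar, Finset.prod_mul_distrib]
      simp only [hW]
      push_cast
      ring
    simp_rw [h2]
    rw [Finset.sum_comm]
    simp_rw [← mul_sum, horth]
    rw [Finset.sum_filter]
    push_cast
    rw [mul_sum]
    refine Finset.sum_congr rfl fun g _ => ?_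
    split_ifs
    · push_cast
      ring
    · simp
  have hWnn : 0 ≤ ∑ g ∈ (Fintype.piFinset (fun _ : Fin k => Icc 1 G)).filter
      (fun g => ((k : ℤ) + 1) ∣ N g), W g := by
    apply Finset.sum_nonneg
    intro g _
    simp only [hW]
    apply Finset.prod_nonneg
    intro i _
    have : 0 < 1 - p := by linarith
    positivity
  have hnorm : ∀ y, ‖χ y‖ = 1 := by
    intro y
    rw [hχ, ZMod.stdAddChar_apply]
    exact Circle.norm_coe _
  -- bound for one character
  have hterm : ∀ x : ZMod (k + 1), x ≠ 0 →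
      ‖χ (x * (d : ZMod (k + 1))) *
        ∏ i : Fin k, ph p G (χ (x * (((i : ℕ) + 1 : ℕ) : ZMod (k + 1))))‖
      ≤ 3 / (1 - rho p) / (k + 1) := by
    intro x hx
    have hB := many k x hx
    set S := (univ : Finset (Fin k)).filter (fun i : Fin k =>
      (ZMod.stdAddChar (x * (((i : ℕ) + 1 : ℕ) : ZMod (k + 1))) : ℂ).re ≤ 1 / 2) with hS
    have h2 : ‖∏ i : Fin k, ph p G (χ (x * (((i : ℕ) + 1 : ℕ) : ZMod (k + 1))))‖
        ≤ rho p ^ S.card := by
      rw [norm_prod]
      rw [← Finset.prod_mul_prod_compl S]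
      have h3 : ∏ i ∈ S, ‖ph p G (χ (x * (((i : ℕ) + 1 : ℕ) : ZMod (k + 1))))‖
          ≤ rho p ^ S.card := by
        rw [← Finset.prod_const]
        apply Finset.prod_le_prod (fun i _ => norm_nonneg _)
        intro i hi
        rw [hS, mem_filter] at hi
        exact ph_le_rho p h0 h1 G _ (hnorm _) hi.2
      have h4 : ∏ i ∈ Sᶜ, ‖ph p G (χ (x * (((i : ℕ) + 1 : ℕ) : ZMod (k + 1))))‖ ≤ 1 :=
        Finset.prod_le_one (fun i _ => norm_nonneg _)
          (fun i _ => ph_le_one p h0 h1 G _ (hnorm _))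
      calc _ ≤ rho p ^ S.card * 1 := by
            apply mul_le_mul h3 h4 (Finset.prod_nonneg fun i _ => norm_nonneg _)
            positivity
        _ = rho p ^ S.card := mul_one _
    rw [norm_mul, hnorm, one_mul]
    refine h2.trans ?_
    have h5 : (S.card : ℝ) * rho p ^ S.card ≤ 1 / (1 - rho p) := by
      have h6 : (S.card : ℝ) * rho p ^ S.card ≤ ∑ j ∈ range S.card, rho p ^ j := by
        calc (S.card : ℝ) * rho p ^ S.card = ∑ j ∈ range S.card, rho p ^ S.card := by
              rw [sum_const, card_range, nsmul_eq_mul]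
          _ ≤ _ := by
              refine Finset.sum_le_sum fun j hj => ?_
              rw [mem_range] at hj
              exact pow_le_pow_of_le_one hρ0.le hρ1.le hj.le
      refine h6.trans ?_
      rw [le_div_iff₀ (by linarith), geom_sum_mul_neg]
      have : 0 ≤ rho p ^ S.card := by positivity
      linarith
    rw [le_div_iff₀ hm]
    calc rho p ^ S.card * (k + 1) ≤ rho p ^ S.card * (3 * S.card) := by
          apply mul_le_mul_of_nonneg_left hB
          positivity
      _ = 3 * (S.card * rho p ^ S.card) := by ring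
      _ ≤ 3 * (1 / (1 - rho p)) := by linarith
      _ = 3 / (1 - rho p) := by ring
  -- conclusion
  have hnn := congrArg norm hid
  rw [norm_mul, Complex.norm_real, Real.norm_eq_abs, abs_of_nonneg hWnn] at hnn
  have hk1 : ‖((k : ℂ) + 1)‖ = (k : ℝ) + 1 := by
    have : ((k : ℂ) + 1) = (((k : ℝ) + 1 : ℝ) : ℂ) := by push_cast; ring
    rw [this, Complex.norm_real, Real.norm_eq_abs, abs_of_pos hm]
  rw [hk1] at hnn
  rw [le_div_iff₀ hm, mul_comm]
  refine le_trans (le_of_eq hnn) ?_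
  refine (norm_sum_le _ _).trans ?_
  rw [← Finset.add_sum_erase _ _ (Finset.mem_univ (0 : ZMod (k + 1)))]
  apply add_le_add
  · rw [norm_mul, hnorm, one_mul, norm_prod]
    exact Finset.prod_le_one (fun i _ => norm_nonneg _)
      (fun i _ => ph_le_one p h0 h1 G _ (hnorm _))
  · calc _ ≤ ∑ x ∈ univ.erase (0 : ZMod (k + 1)), 3 / (1 - rho p) / ((k : ℝ) + 1) :=
          Finset.sum_le_sum fun x hx => hterm x (ne_of_mem_erase hx)
      _ = k * (3 / (1 - rho p) / ((k : ℝ) + 1)) := by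
          rw [sum_const, card_erase_of_mem (mem_univ _), card_univ, ZMod.card, nsmul_eq_mul]
          simp
      _ ≤ 3 / (1 - rho p) := by
          have h5 : 0 < 3 / (1 - rho p) := by
            have : 0 < 1 - rho p := by linarith
            positivity
          rw [mul_div_assoc', div_le_iff₀ hm]
          nlinarith

end Q224.RC
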