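import Pool.Agent.Q109.RC.Stm

namespace Q224.RC

open Finset Q109.RC

theorem fin_sum_id : ∀ (k : ℕ) (f : Fin (k + 1) → ℤ),
    ∑ i, f i = ((k : ℤ) + 1) * f (Fin.last k) -
      ∑ i : Fin k, (((i : ℕ) : ℤ) + 1) * (f i.succ - f i.castSucc) := by
  intro k
  induction k with
  | zero => intro f; simp
  | succ k ih =>
    intro f
    rw [Fin.sum_univ_castSucc, ih (fun i => f i.castSucc), Fin.sum_univ_castSucc]
    simp only [Fin.val_castSucc, Fin.val_last, Fin.succ_castSucc, Fin.succ_last]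
    push_cast
    ring

theorem fin_tele : ∀ (k : ℕ) (f : Fin (k + 1) → ℤ),
    ∑ i : Fin k, (f i.succ - f i.castSucc) = f (Fin.last k) - f 0 := by
  intro k
  induction k with
  | zero => intro f; simp
  | succ k ih =>
    intro f
    rw [Fin.sum_univ_castSucc]
    have h := ih (fun i => f i.castSucc)
    simp only [Fin.castSucc_zero] at h
    simp only [Fin.succ_castSucc, Fin.succ_last]
    rw [h]
    ring

/-- The gap vector. -/
noncomputable def gv (k : ℕ) (F : Finset ℕ) (i : Fin k) : ℕ :=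
  if h : F.card = k + 1 then F.orderEmbOfFin h i.succ - F.orderEmbOfFin h i.castSucc else 0

theorem gv_cast (k : ℕ) (F : Finset ℕ) (h : F.card = k + 1) (i : Fin k) :
    ((gv k F i : ℕ) : ℤ) = (F.orderEmbOfFin h i.succ : ℤ) - (F.orderEmbOfFin h i.castSucc : ℤ) := by
  unfold gv
  rw [dif_pos h, Nat.cast_sub]
  exact (F.orderEmbOfFin h).monotone (Fin.castSucc_lt_succ).le

theorem gv_pos (k : ℕ) (F : Finset ℕ) (h : F.card = k + 1) (i : Fin k) : 1 ≤ gv k F i := by
  have h1 : F.orderEmbOfFin h i.castSucc < F.orderEmbOfFin h i.succ :=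
    (F.orderEmbOfFin h).strictMono Fin.castSucc_lt_succ
  unfold gv
  rw [dif_pos h]
  omega

theorem sum_emb (k : ℕ) (F : Finset ℕ) (h : F.card = k + 1) :
    ∑ w ∈ F, w = ∑ i, F.orderEmbOfFin h i := by
  have h1 : F = univ.map (F.orderEmbOfFin h).toEmbedding := by
    ext x
    simp only [mem_map, mem_univ, true_and, RelEmbedding.coe_toEmbedding]
    have h2 := Finset.range_orderEmbOfFin F h
    have h3 : x ∈ Set.range (F.orderEmbOfFin h) ↔ x ∈ (F : Set ℕ) := by rw [h2]
    rw [Set.mem_range, mem_coe] at h3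
    exact h3.symm
  conv_lhs => rw [h1]
  rw [sum_map]
  rfl

/-- The sum is determined by the largest element and the gaps. -/
theorem gv_sum (k : ℕ) (F : Finset ℕ) (h : F.card = k + 1) :
    ((∑ w ∈ F, w : ℕ) : ℤ) + ∑ i : Fin k, (((i : ℕ) : ℤ) + 1) * (gv k F i : ℤ)
      = ((k : ℤ) + 1) * (F.orderEmbOfFin h (Fin.last k) : ℤ) := by
  rw [sum_emb k F h]
  push_cast
  rw [fin_sum_id k (fun i => ((F.orderEmbOfFin h i : ℕ) : ℤ))]
  simp_rw [gv_cast k F h]
  ring

/-- A set is determined by its size, its sum and its gaps. -/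
theorem gv_inj (k : ℕ) (F F' : Finset ℕ) (h : F.card = k + 1) (h' : F'.card = k + 1)
    (hs : ∑ w ∈ F, w = ∑ w ∈ F', w) (hg : gv k F = gv k F') : F = F' := by
  have h1 : ∀ i : Fin (k + 1), (F.orderEmbOfFin h i : ℤ) - (F'.orderEmbOfFin h' i : ℤ)
      = (F.orderEmbOfFin h 0 : ℤ) - (F'.orderEmbOfFin h' 0 : ℤ) := by
    intro i
    induction i using Fin.induction with
    | zero => rfl
    | succ i ih =>
      have e1 := gv_cast k F h i
      have e2 := gv_cast k F' h' i
      rw [hg] at e1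
      linarith
  have h2 : (F.orderEmbOfFin h 0 : ℤ) - (F'.orderEmbOfFin h' 0 : ℤ) = 0 := by
    rw [sum_emb k F h, sum_emb k F' h'] at hs
    have h3 : ((∑ i, F.orderEmbOfFin h i : ℕ) : ℤ) - ((∑ i, F'.orderEmbOfFin h' i : ℕ) : ℤ) = 0 := by
      rw [hs]; ring
    push_cast at h3
    rw [← sum_sub_distrib, sum_congr rfl (fun i _ => h1 i), sum_const, card_univ,
      Fintype.card_fin, nsmul_eq_mul] at h3
    rcases mul_eq_zero.1 h3 with h4 | h4
    · exact absurd h4 (by exact_mod_cast Nat.succ_ne_zero k)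
    · exact h4
  have h3 : ∀ i, F.orderEmbOfFin h i = F'.orderEmbOfFin h' i := by
    intro i
    have := h1 i
    rw [h2] at this
    omega
  have r1 := Finset.range_orderEmbOfFin F h
  have r2 := Finset.range_orderEmbOfFin F' h'
  apply Finset.coe_injective
  rw [← r1, ← r2]
  congr 1
  funext i
  exact h3 i

/-- The triples (smallest element, largest element, set). -/
def Tr (a b d : ℕ) : Finset ((ℕ × ℕ) × Finset ℕ) :=
  ((Ico a b ×ˢ Ico a b) ×ˢ (Ico a b).powerset).filter (fun s =>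
    s.1.1 ≤ s.1.2 ∧ s.2 ⊆ Icc s.1.1 s.1.2 ∧ s.1.1 ∈ s.2 ∧ s.1.2 ∈ s.2 ∧ ∑ w ∈ s.2, w = d)

/-- The weight of a triple. -/
noncomputable def wt (p : ℝ) (s : (ℕ × ℕ) × Finset ℕ) : ℝ :=
  p ^ s.2.card * (1 - p) ^ ((s.1.2 + 1 - s.1.1) - s.2.card)

theorem min_max (k : ℕ) (F : Finset ℕ) (h : F.card = k + 1) (x z : ℕ) (hF : F ⊆ Icc x z)
    (hx : x ∈ F) (hz : z ∈ F) :
    F.orderEmbOfFin h 0 = x ∧ F.orderEmbOfFin h (Fin.last k) = z := by
  have r1 := Finset.range_orderEmbOfFin F h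
  constructor
  · apply le_antisymm
    · have : x ∈ Set.range (F.orderEmbOfFin h) := by rw [r1]; exact hx
      obtain ⟨i, hi⟩ := this
      rw [← hi]
      exact (F.orderEmbOfFin h).monotone (Fin.zero_le i)
    · exact (mem_Icc.1 (hF (F.orderEmbOfFin_mem h 0))).1
  · apply le_antisymm
    · exact (mem_Icc.1 (hF (F.orderEmbOfFin_mem h (Fin.last k)))).2
    · have : z ∈ Set.range (F.orderEmbOfFin h) := by rw [r1]; exact hz
      obtain ⟨i, hi⟩ := this
      rw [← hi]
      exact (F.orderEmbOfFin h).monotone (Fin.le_last i)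

theorem wt_eq (p : ℝ) (k : ℕ) (x z : ℕ) (F : Finset ℕ) (h : F.card = k + 1) (hF : F ⊆ Icc x z)
    (hx : x ∈ F) (hz : z ∈ F) (hxz : x ≤ z) :
    wt p ((x, z), F) = p * ∏ i : Fin k, (p * (1 - p) ^ (gv k F i - 1)) := by
  obtain ⟨h0, h1⟩ := min_max k F h x z hF hx hz
  have h2 : ∑ i : Fin k, (gv k F i : ℤ) = (z : ℤ) - x := by
    have := fin_tele k (fun i => ((F.orderEmbOfFin h i : ℕ) : ℤ))
    rw [h0, h1] at this
    rw [← this]
    exact sum_congr rfl fun i _ => gv_cast k F h i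
  have h3 : ∑ i : Fin k, (gv k F i - 1) + k = z - x := by
    have h4 : ∑ i : Fin k, (gv k F i - 1) + k = ∑ i : Fin k, gv k F i := by
      have h5 : ∑ i : Fin k, gv k F i = ∑ i : Fin k, ((gv k F i - 1) + 1) :=
        sum_congr rfl fun i _ => by have := gv_pos k F h i; omega
      rw [h5, sum_add_distrib]
      simp
    rw [h4]
    have h6 : ((∑ i : Fin k, gv k F i : ℕ) : ℤ) = (z : ℤ) - x := by
      push_cast
      exact h2
    omega
  rw [prod_mul_distrib, prod_const, card_univ, Fintype.card_fin, prod_pow_eq_pow_sum]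
  unfold wt
  rw [h]
  have h7 : z + 1 - x - (k + 1) = ∑ i : Fin k, (gv k F i - 1) := by omega
  rw [h7, pow_succ]
  ring

theorem gap_one (p C : ℝ) (h0 : 0 < p) (h1 : p < 1) (k a b d : ℕ)
    (hC : ∀ (G : ℕ) (d : ℤ), ∑ g ∈ (Fintype.piFinset (fun _ : Fin k => Icc 1 G)).filter
      (fun g => ((k : ℤ) + 1) ∣ d + ∑ i : Fin k, (((i : ℕ) : ℤ) + 1) * (g i : ℤ)),
        ∏ i : Fin k, (p * (1 - p) ^ (g i - 1)) ≤ C / (k + 1)) :
    ∑ s ∈ (Tr a b d).filter (fun s => s.2.card = k + 1), wt p s ≤ p * (C / (k + 1)) := by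
  classical
  have hmem : ∀ s ∈ (Tr a b d).filter (fun s => s.2.card = k + 1),
      s.1.1 ≤ s.1.2 ∧ s.2 ⊆ Icc s.1.1 s.1.2 ∧ s.1.1 ∈ s.2 ∧ s.1.2 ∈ s.2 ∧ ∑ w ∈ s.2, w = d ∧
      s.2.card = k + 1 ∧ s.1.2 < b := by
    intro s hs
    unfold Tr at hs
    rw [mem_filter, mem_filter, mem_product, mem_product] at hs
    obtain ⟨⟨⟨⟨-, hb⟩, -⟩, h2, h3, h4, h5, h6⟩, h7⟩ := hs
    exact ⟨h2, h3, h4, h5, h6, h7, (mem_Ico.1 hb).2⟩
  have e1 : ∑ s ∈ (Tr a b d).filter (fun s => s.2.card = k + 1), wt p s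
      = ∑ s ∈ (Tr a b d).filter (fun s => s.2.card = k + 1),
          (fun g : Fin k → ℕ => p * ∏ i : Fin k, (p * (1 - p) ^ (g i - 1))) (gv k s.2) := by
    refine sum_congr rfl fun s hs => ?_
    obtain ⟨h2, h3, h4, h5, h6, h7, -⟩ := hmem s hs
    exact wt_eq p k s.1.1 s.1.2 s.2 h7 h3 h4 h5 h2
  have hinj : Set.InjOn (fun s : (ℕ × ℕ) × Finset ℕ => gv k s.2)
      ((Tr a b d).filter (fun s => s.2.card = k + 1)) := by
    intro s hs t ht hst
    obtain ⟨h2, h3, h4, h5, h6, h7, -⟩ := hmem s hs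
    obtain ⟨g2, g3, g4, g5, g6, g7, -⟩ := hmem t ht
    have h8 : s.2 = t.2 := gv_inj k s.2 t.2 h7 g7 (h6.trans g6.symm) hst
    obtain ⟨a1, a2⟩ := min_max k s.2 h7 _ _ h3 h4 h5
    obtain ⟨b1, b2⟩ := min_max k t.2 g7 _ _ g3 g4 g5
    have c1 : s.1.1 = t.1.1 := by
      rw [← a1, ← b1]
      congr 1
      congr 1
    have c2 : s.1.2 = t.1.2 := by
      rw [← a2, ← b2]
      congr 1
      congr 1
    exact Prod.ext (Prod.ext c1 c2) h8
  rw [e1, ← sum_image (f := fun g : Fin k → ℕ => p * ∏ i : Fin k, (p * (1 - p) ^ (g i - 1)))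
    (g := fun s : (ℕ × ℕ) × Finset ℕ => gv k s.2) hinj]
  rw [← mul_sum]
  apply mul_le_mul_of_nonneg_left _ h0.le
  refine le_trans (sum_le_sum_of_subset_of_nonneg ?_ ?_) (hC b d)
  · intro g hg
    rw [mem_image] at hg
    obtain ⟨s, hs, rfl⟩ := hg
    obtain ⟨h2, h3, h4, h5, h6, h7, h8⟩ := hmem s hs
    rw [mem_filter]
    constructor
    · rw [Fintype.mem_piFinset]
      intro i
      rw [mem_Icc]
      refine ⟨gv_pos k s.2 h7 i, ?_⟩
      have h9 : s.2.orderEmbOfFin h7 i.succ ≤ s.1.2 :=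
        (mem_Icc.1 (h3 (s.2.orderEmbOfFin_mem h7 i.succ))).2
      unfold gv
      rw [dif_pos h7]
      omega
    · have h9 := gv_sum k s.2 h7
      rw [h6] at h9
      exact ⟨_, h9⟩
  · intro g _ _
    apply prod_nonneg
    intro i _
    have : 0 < 1 - p := by linarith
    positivity

/-- The gap vector injection. -/
theorem gap (hFou : S_Fou) : S_Gap := by
  classical
  intro p h0 h1
  obtain ⟨C, hC0, hC⟩ := hFou p h0 h1
  have hq : 0 < 1 - p := by linarith
  refine ⟨3 * p * C, by positivity, ?_⟩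
  intro a b d ha hb
  have hwt : ∀ s, 0 ≤ wt p s := by
    intro s; unfold wt; positivity
  -- rewriting as a sum over triples
  have e1 : ∑ x ∈ Ico a b, ∑ z ∈ Ico x b,
      Pr p (Icc x z) (fun F => x ∈ F ∧ z ∈ F ∧ ∑ w ∈ F, w = d) ≤ ∑ s ∈ Tr a b d, wt p s := by
    unfold Tr
    rw [sum_filter, sum_product, sum_product]
    refine sum_le_sum fun x hx => ?_
    rw [mem_Ico] at hx
    have hsub : Ico x b ⊆ Ico a b := Ico_subset_Ico_left hx.1
    refine le_trans ?_ (sum_le_sum_of_subset_of_nonneg hsub ?_)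
    · refine sum_le_sum fun z hz => ?_
      rw [mem_Ico] at hz
      unfold Pr Ex
      have hsub2 : (Icc x z).powerset ⊆ (Ico a b).powerset := by
        apply powerset_mono.2
        intro y hy
        rw [mem_Icc] at hy
        rw [mem_Ico]
        omega
      refine le_trans ?_ (sum_le_sum_of_subset_of_nonneg hsub2 ?_)
      · refine sum_le_sum fun F hF => ?_
        rw [mem_powerset] at hF
        dsimp only
        by_cases hE : x ∈ F ∧ z ∈ F ∧ ∑ w ∈ F, w = d
        · rw [if_pos hE, if_pos ⟨hz.1, hF, hE.1, hE.2.1, hE.2.2⟩, mul_one]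
          unfold wt
          rw [Nat.card_Icc]
        · rw [if_neg hE, mul_zero]
          split_ifs
          · exact hwt _
          · exact le_rfl
      · intro F _ _
        split_ifs
        · exact hwt _
        · exact le_rfl
    · intro z _ _
      apply sum_nonneg
      intro F _
      split_ifs
      · exact hwt _
      · exact le_rfl
  refine e1.trans ?_
  -- sizes
  set D := d / a with hD
  set Ms := (Icc 1 D).filter (fun m => D < 3 * m) with hMs
  have hmaps : ∀ s ∈ Tr a b d, s.2.card ∈ Ms := by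
    intro s hs
    unfold Tr at hs
    rw [mem_filter, mem_product, mem_product, mem_powerset] at hs
    obtain ⟨⟨-, hF⟩, h2, h3, h4, h5, h6⟩ := hs
    have hne : 1 ≤ s.2.card := card_pos.2 ⟨_, h4⟩
    have hlow : s.2.card * a ≤ d := by
      rw [← h6, ← smul_eq_mul]
      exact card_nsmul_le_sum _ _ _ (fun y hy => (mem_Ico.1 (hF hy)).1)
    have hup : d < s.2.card * (3 * a) := by
      rw [← h6]
      calc ∑ w ∈ s.2, w < ∑ w ∈ s.2, 3 * a :=
            sum_lt_sum_of_nonempty ⟨_, h4⟩ (fun y hy => by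
              have := (mem_Ico.1 (hF hy)).2
              omega)
        _ = s.2.card * (3 * a) := by rw [sum_const, smul_eq_mul]
    rw [hMs, mem_filter, mem_Icc]
    refine ⟨⟨hne, ?_⟩, ?_⟩
    · rw [hD]
      exact (Nat.le_div_iff_mul_le (by omega)).2 hlow
    · rw [hD]
      apply (Nat.div_lt_iff_lt_mul (by omega)).2
      calc d < s.2.card * (3 * a) := hup
        _ = 3 * s.2.card * a := by ring
  rw [← sum_fiberwise_of_maps_to hmaps]
  have hterm : ∀ m ∈ Ms, ∑ s ∈ (Tr a b d).filter (fun s => s.2.card = m), wt p s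
      ≤ 3 * p * C / D := by
    intro m hm
    rw [hMs, mem_filter, mem_Icc] at hm
    obtain ⟨⟨hm1, hm2⟩, hm3⟩ := hm
    obtain ⟨k, rfl⟩ : ∃ k, m = k + 1 := ⟨m - 1, by omega⟩
    refine (gap_one p C h0 h1 k a b d (fun G d' => hC k G d')).trans ?_
    have hD1 : (0 : ℝ) < D := by
      have : 0 < D := by omega
      exact_mod_cast this
    have hk1 : (0 : ℝ) < (k : ℝ) + 1 := by positivity
    have hDk : (D : ℝ) ≤ 3 * ((k : ℝ) + 1) := by
      exact_mod_cast hm3.le
    rw [mul_div_assoc', div_le_div_iff₀ hk1 hD1]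
    have hpc : 0 < p * C := by positivity
    nlinarith
  refine (sum_le_sum hterm).trans ?_
  rw [sum_const, nsmul_eq_mul]
  have hcard : Ms.card ≤ D := by
    refine (card_le_card (filter_subset _ _)).trans ?_
    simp
  rcases Nat.eq_zero_or_pos D with h | h
  · rw [h] at hcard ⊢
    have : Ms.card = 0 := by omega
    rw [this]
    simp
    positivity
  · have hD1 : (0 : ℝ) < D := by exact_mod_cast h
    have hc : (Ms.card : ℝ) ≤ D := by exact_mod_cast hcard
    rw [mul_div_assoc', div_le_iff₀ hD1]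
    have : 0 < 3 * p * C := by positivity
    nlinarith

end Q224.RC
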