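import Pool.Agent.Q109.RC.Stm

namespace Q224.RC

open Finset Q109.RC

theorem fact1 (C : ℕ) : ∃ K₀ : ℕ, ∀ K ≥ K₀, (C * K + 1) ^ 2 ≤ 2 ^ K := by
  have h := tendsto_pow_const_div_const_pow_of_one_lt 2 (one_lt_two : (1 : ℝ) < 2)
  have hC : (0 : ℝ) < 1 / ((C : ℝ) + 1) ^ 2 := by positivity
  have h2 := (h.eventually_lt_const hC).and (Filter.eventually_ge_atTop 1)
  obtain ⟨K₀, hK₀⟩ := Filter.eventually_atTop.1 h2
  refine ⟨K₀, fun K hK => ?_⟩
  obtain ⟨h3, h4⟩ := hK₀ K hK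
  rw [div_lt_div_iff₀ (by positivity) (by positivity), one_mul] at h3
  have h5 : (C * K + 1) ^ 2 ≤ K ^ 2 * (C + 1) ^ 2 := by
    rw [← mul_pow]
    apply Nat.pow_le_pow_left
    nlinarith
  have h6 : K ^ 2 * (C + 1) ^ 2 ≤ 2 ^ K := by
    exact_mod_cast h3.le
  exact h5.trans h6

theorem fact2 (η : ℝ) (h0 : 0 ≤ η) (h1 : η < 1) : ∃ L₀ : ℕ, ∀ L ≥ L₀,
    ((L : ℝ) + 1) ^ 4 * η ^ L ≤ 1 := by
  have h := tendsto_pow_const_mul_const_pow_of_abs_lt_one 4 (abs_lt.2 ⟨by linarith, h1⟩)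
  have h2 := (h.eventually_lt_const (by norm_num : (0 : ℝ) < 1 / 16)).and
    (Filter.eventually_ge_atTop 1)
  obtain ⟨L₀, hL₀⟩ := Filter.eventually_atTop.1 h2
  refine ⟨L₀, fun L hL => ?_⟩
  obtain ⟨h3, h4⟩ := hL₀ L hL
  have h5 : (1 : ℝ) ≤ L := by exact_mod_cast h4
  have h6 : ((L : ℝ) + 1) ^ 4 ≤ (2 * L) ^ 4 := by
    apply pow_le_pow_left₀ (by positivity)
    linarith
  have h7 : 0 ≤ η ^ L := pow_nonneg h0 _
  calc ((L : ℝ) + 1) ^ 4 * η ^ L ≤ (2 * L) ^ 4 * η ^ L := mul_le_mul_of_nonneg_right h6 h7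
    _ = 16 * (L ^ 4 * η ^ L) := by ring
    _ ≤ 1 := by linarith

/-- The local limit bound. -/
theorem loc (hScale : S_Scale) (hEmb : S_Emb) : S_Loc := by
  classical
  intro p h0 h1 M
  have hq : 0 < 1 - p := by linarith
  set E := 64 * M with hE
  set R := 2 ^ E with hR
  set C := 8 * R * (64 * M) with hC
  have hR1 : 1 ≤ R := Nat.one_le_two_pow
  set η : ℝ := 1 - 2 * (p * (1 - p)) ^ R with hη
  have hpq : p * (1 - p) ≤ 1 / 4 := by nlinarith [sq_nonneg (p - 1 / 2)]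
  have hpq0 : 0 < p * (1 - p) := by positivity
  have hη1 : η < 1 := by
    have : 0 < (p * (1 - p)) ^ R := by positivity
    rw [hη]
    linarith
  have hη0 : 0 ≤ η := by
    have h2 : (p * (1 - p)) ^ R ≤ (p * (1 - p)) ^ 1 :=
      pow_le_pow_of_le_one hpq0.le (by linarith) hR1
    rw [pow_one] at h2
    rw [hη]
    linarith
  obtain ⟨K₀, hK₀⟩ := fact1 C
  obtain ⟨L₀, hL₀⟩ := fact2 η hη0 hη1
  refine ⟨max ((max (C * K₀) L₀) ^ 2) (64 * M + 2), ?_⟩
  intro n hn s u hu Y hY v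
  have hu' : n ≤ 64 * M * u := hu
  have hn1 : (max (C * K₀) L₀) ^ 2 ≤ n := (le_max_left _ _).trans hn
  have hn2 : 64 * M + 2 ≤ n := (le_max_right _ _).trans hn
  set L := Nat.sqrt n with hL
  set K := Nat.log 2 (n / 2) with hK
  have hLge : max (C * K₀) L₀ ≤ L := Nat.le_sqrt'.2 hn1
  have hLn : L ^ 2 ≤ n := Nat.sqrt_le' n
  have hnL : n < (L + 1) ^ 2 := Nat.lt_succ_sqrt' n
  have hn20 : n / 2 ≠ 0 := by omega
  have hK1 : 2 ^ K ≤ n / 2 := Nat.pow_log_le_self 2 hn20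
  have hK2 : n / 2 < 2 ^ (K + 1) := Nat.lt_pow_succ_log_self one_lt_two _
  have hM : 0 < M := by
    rcases Nat.eq_zero_or_pos M with h | h
    · rw [h] at hu'
      simp at hu'
      omega
    · exact h
  have hCK : C * K ≤ L := by
    by_cases h : K₀ ≤ K
    · by_contra hcon
      push Not at hcon
      have h2 := hK₀ K h
      have h3 : (L + 1) ^ 2 ≤ (C * K + 1) ^ 2 := Nat.pow_le_pow_left (by omega) 2
      omega
    · push Not at h
      calc C * K ≤ C * K₀ := Nat.mul_le_mul_left _ h.le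
        _ ≤ max (C * K₀) L₀ := le_max_left _ _
        _ ≤ L := hLge
  have hu2 : 8 * (K * L * R) ≤ u := by
    have h2 : (64 * M) * (8 * (K * L * R)) ≤ (64 * M) * u := by
      calc (64 * M) * (8 * (K * L * R)) = C * K * L := by rw [hC]; ring
        _ ≤ L * L := Nat.mul_le_mul_right _ hCK
        _ = L ^ 2 := by ring
        _ ≤ n := hLn
        _ ≤ 64 * M * u := hu'
    exact Nat.le_of_mul_le_mul_left h2 (by omega)
  have hu1 : 2 ≤ u := by
    by_contra h
    push Not at h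
    have h2 : 64 * M * u ≤ 64 * M * 1 := Nat.mul_le_mul_left _ (by omega)
    omega
  have hEM : 64 * M ≤ 2 ^ E := by
    rw [hE]
    exact Nat.lt_two_pow_self.le
  set r : ℕ → ℕ := fun k => 2 ^ (min k E) with hr
  set δ : ℕ → ℕ := fun k => 2 ^ (k - min k E) with hδ
  have hrδ : ∀ k, r k * δ k = 2 ^ k := by
    intro k
    simp only [hr, hδ]
    rw [← pow_add]
    congr 1
    omega
  have hcond : ∀ k < K, 1 ≤ r k ∧ r k ≤ R ∧ 1 ≤ δ k ∧ 2 * δ k ≤ u := by
    intro k hk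
    refine ⟨Nat.one_le_two_pow, Nat.pow_le_pow_right (by norm_num) (min_le_right _ _),
      Nat.one_le_two_pow, ?_⟩
    by_cases hkE : k ≤ E
    · simp only [hδ]
      rw [min_eq_left hkE, Nat.sub_self, pow_zero]
      omega
    · push Not at hkE
      simp only [hδ]
      rw [min_eq_right hkE.le]
      have h2 : 2 ^ E * (2 * 2 ^ (k - E)) ≤ 2 ^ E * u := by
        calc 2 ^ E * (2 * 2 ^ (k - E)) = 2 ^ (k + 1) := by
              rw [← pow_succ', ← pow_add]
              congr 1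
              omega
          _ ≤ 2 ^ K := Nat.pow_le_pow_right (by norm_num) hk
          _ ≤ n / 2 := hK1
          _ ≤ n := Nat.div_le_self _ _
          _ ≤ 64 * M * u := hu'
          _ ≤ 2 ^ E * u := Nat.mul_le_mul_right _ hEM
      exact Nat.le_of_mul_le_mul_left h2 (by positivity)
  obtain ⟨J, hJ1, hJ2⟩ := hEmb K L R u s r δ hcond hu2
  set f : ℕ → ℝ := fun t => if t ≤ v ∧ v - t ∈ Y then 1 else 0 with hf
  have hf0 : ∀ t, 0 ≤ f t := by
    intro t
    simp only [hf]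
    split_ifs <;> norm_num
  have hf1 : ∀ t, f t ≤ 1 := by
    intro t
    simp only [hf]
    split_ifs <;> norm_num
  have hwin : ∀ t, ∑ j ∈ range (2 ^ K), f (t + j) ≤ 1 := by
    intro t
    simp only [hf]
    rw [sum_boole]
    have hc : ((range (2 ^ K)).filter (fun j => t + j ≤ v ∧ v - (t + j) ∈ Y)).card ≤ 1 := by
      rw [card_le_one]
      have hlt : ∀ j j', j < 2 ^ K → j' < 2 ^ K → (t + j ≤ v ∧ v - (t + j) ∈ Y) →
          (t + j' ≤ v ∧ v - (t + j') ∈ Y) → ¬ j < j' := by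
        intro j j' hj hj' h h' hlt
        have h2 := hY _ h'.2 _ h.2 (by omega)
        omega
      intro j hj j' hj'
      rw [mem_filter, mem_range] at hj hj'
      have a1 := hlt j j' hj.1 hj'.1 hj.2 hj'.2
      have a2 := hlt j' j hj'.1 hj.1 hj'.2 hj.2
      omega
    exact_mod_cast hc
  have hS := hScale p h0 h1 K L R (Ico s (s + u)) r J (fun k hk => (hcond k hk).2.1)
    (fun k hk i hi => by
      have := hJ1 k hk i hi
      rw [hrδ] at this
      exact this) hJ2 f 1 1 hf0 hf1 hwin 0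
  have hsum : ∑ y ∈ Y, Pr p (Ico s (s + u)) (fun A => ∑ w ∈ A, w + y = v)
      = T p (Ico s (s + u)) f 0 := by
    unfold Pr T
    rw [← Ex_sum]
    refine Ex_congr fun A _ => ?_
    rw [zero_add]
    simp only [hf]
    by_cases ht : ∑ w ∈ A, w ≤ v
    · trans ∑ y ∈ Y, if v - ∑ w ∈ A, w = y then (1 : ℝ) else 0
      · refine sum_congr rfl fun y _ => ?_
        by_cases h3 : ∑ w ∈ A, w + y = v
        · rw [if_pos h3, if_pos (by omega)]
        · rw [if_neg h3, if_neg (by omega)]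
      rw [sum_ite_eq]
      by_cases h4 : v - ∑ w ∈ A, w ∈ Y
      · rw [if_pos h4, if_pos ⟨ht, h4⟩]
      · rw [if_neg h4, if_neg (fun h => h4 h.2)]
    · rw [if_neg (fun h => ht h.1)]
      refine sum_eq_zero fun y _ => ?_
      rw [if_neg]
      omega
  rw [hsum]
  refine hS.trans ?_
  rw [← hη, mul_one]
  have hnpos : (0 : ℝ) < n := by
    have : 0 < n := by omega
    exact_mod_cast this
  have hA : (K : ℝ) * η ^ L ≤ 1 / n := by
    rw [le_div_iff₀ hnpos]
    have h2 := hL₀ L ((le_max_right _ _).trans hLge)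
    have hKn : K ≤ n := by
      have h3 : K < 2 ^ K := Nat.lt_two_pow_self
      have h4 : n / 2 ≤ n := Nat.div_le_self _ _
      omega
    have h3 : (K : ℝ) * n ≤ ((L : ℝ) + 1) ^ 4 := by
      have h4 : K * n ≤ (L + 1) ^ 4 := by
        calc K * n ≤ n * n := Nat.mul_le_mul_right _ hKn
          _ ≤ (L + 1) ^ 2 * (L + 1) ^ 2 := Nat.mul_le_mul hnL.le hnL.le
          _ = (L + 1) ^ 4 := by ring
      exact_mod_cast h4
    calc (K : ℝ) * η ^ L * n = (K : ℝ) * n * η ^ L := by ring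
      _ ≤ ((L : ℝ) + 1) ^ 4 * η ^ L := mul_le_mul_of_nonneg_right h3 (pow_nonneg hη0 _)
      _ ≤ 1 := h2
  have hB : (1 : ℝ) / 2 ^ K ≤ 4 / n := by
    rw [div_le_div_iff₀ (by positivity) hnpos, one_mul]
    have h2 : n ≤ 4 * 2 ^ K := by
      rw [pow_succ] at hK2
      omega
    exact_mod_cast h2
  calc (K : ℝ) * η ^ L + 1 / 2 ^ K ≤ 1 / n + 4 / n := add_le_add hA hB
    _ = 5 / n := by ring

end Q224.RC
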