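import Pool.Agent.Q109.RC.Stm

namespace Q224.RC

open Finset Q109.RC

section
variable {p : ℝ}

theorem T_union (p : ℝ) {I J : Finset ℕ} (h : Disjoint I J) (f : ℕ → ℝ) (t : ℕ) :
    T p (I ∪ J) f t = T p I (T p J f) t := by
  unfold T
  rw [Ex_union p h]
  refine Ex_congr fun F hF => Ex_congr fun G hG => ?_
  have hd : Disjoint F G := Finset.disjoint_of_subset_left hF
    (Finset.disjoint_of_subset_right hG h)
  rw [Finset.sum_union hd, add_assoc]

theorem T_empty (p : ℝ) (f : ℕ → ℝ) (t : ℕ) : T p ∅ f t = f t := by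
  unfold T
  rw [Ex_empty]
  simp

theorem T_le (h0 : 0 ≤ p) (h1 : p ≤ 1) (I : Finset ℕ) {f : ℕ → ℝ} {c : ℝ} (h : ∀ t, f t ≤ c)
    (t : ℕ) : T p I f t ≤ c := Ex_le h0 h1 fun _ _ => h _

theorem T_nonneg (h0 : 0 ≤ p) (h1 : p ≤ 1) (I : Finset ℕ) {f : ℕ → ℝ} (h : ∀ t, 0 ≤ f t)
    (t : ℕ) : 0 ≤ T p I f t := Ex_nonneg h0 h1 fun _ _ => h _

theorem T_pair (h0 : 0 ≤ p) (h1 : p ≤ 1) (I : Finset ℕ) {f : ℕ → ℝ} {D : ℕ} {c : ℝ}
    (h : ∀ t, f t + f (t + D) ≤ c) (t : ℕ) : T p I f t + T p I f (t + D) ≤ c := by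
  unfold T
  rw [← Ex_add]
  refine Ex_le h0 h1 fun F _ => ?_
  have := h (t + ∑ z ∈ F, z)
  have e : t + D + ∑ z ∈ F, z = t + ∑ z ∈ F, z + D := by ring
  rw [e]
  exact this

/-- One good set. -/
theorem one_good (h0 : 0 < p) (h1 : p < 1) {r R D : ℕ} (hr : r ≤ R) {J : Finset ℕ}
    (hJ : Good r D J) {f : ℕ → ℝ} {b b' : ℝ} (hb : ∀ t, f t ≤ b) (hbb : b' ≤ b)
    (hp : ∀ t, f t + f (t + D) ≤ 2 * b') (t : ℕ) :
    T p J f t ≤ (1 - 2 * (p * (1 - p)) ^ R) * b + 2 * (p * (1 - p)) ^ R * b' := by
  obtain ⟨hcard, F, hF, F', hF', hne, hcF, hcF', hsum⟩ := hJ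
  have hq : 0 < 1 - p := by linarith
  set α := (p * (1 - p)) ^ r with hα
  have hw : ∀ G : Finset ℕ, G.card = r → p ^ G.card * (1 - p) ^ (J.card - G.card) = α := by
    intro G hG
    rw [hG, hcard, show 2 * r - r = r by omega, hα, mul_pow]
  have h2 : T p J f t ≤ b - (α * (b - f (t + ∑ z ∈ F, z)) + α * (b - f (t + ∑ z ∈ F', z))) := by
    have h3 : T p J f t = b - Ex p J (fun G => b - f (t + ∑ z ∈ G, z)) := by
      rw [Ex_sub, Ex_const]
      unfold T
      ring
    rw [h3]
    apply sub_le_sub_left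
    unfold Ex
    have h4 : ∀ G ∈ J.powerset, 0 ≤ p ^ G.card * (1 - p) ^ (J.card - G.card) *
        (b - f (t + ∑ z ∈ G, z)) := by
      intro G _
      have := hb (t + ∑ z ∈ G, z)
      have : 0 ≤ b - f (t + ∑ z ∈ G, z) := by linarith
      positivity
    have h5 : ({F, F'} : Finset (Finset ℕ)) ⊆ J.powerset := by
      intro G hG
      rw [mem_insert, mem_singleton] at hG
      rw [mem_powerset]
      rcases hG with rfl | rfl
      · exact hF
      · exact hF'
    have h6 := sum_le_sum_of_subset_of_nonneg h5 (fun G hG _ => h4 G hG)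
    rw [sum_pair hne, hw F hcF, hw F' hcF'] at h6
    exact h6
  have h3 := hp (t + ∑ z ∈ F, z)
  have h4 : t + ∑ z ∈ F', z = t + ∑ z ∈ F, z + D := by rw [hsum]; ring
  rw [h4] at h2
  have hα0 : (p * (1 - p)) ^ R ≤ α := by
    apply pow_le_pow_of_le_one (by positivity) _ hr
    nlinarith
  have hα1 : 0 ≤ α := by positivity
  nlinarith [mul_le_mul_of_nonneg_right hα0 (by linarith : 0 ≤ b - b'),
    mul_le_mul_of_nonneg_left h3 hα1]

theorem eta_bounds (h0 : 0 < p) (h1 : p < 1) {R : ℕ} (hr : 1 ≤ R) :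
    0 ≤ 1 - 2 * (p * (1 - p)) ^ R ∧ 1 - 2 * (p * (1 - p)) ^ R ≤ 1 := by
  have hq : 0 < 1 - p := by linarith
  have hpq : p * (1 - p) ≤ 1 / 4 := by nlinarith [sq_nonneg (p - 1 / 2)]
  have hpq0 : 0 < p * (1 - p) := by positivity
  have h2 : (p * (1 - p)) ^ R ≤ p * (1 - p) := by
    calc (p * (1 - p)) ^ R ≤ (p * (1 - p)) ^ 1 :=
          pow_le_pow_of_le_one hpq0.le (by linarith) hr
      _ = _ := pow_one _
  have h3 : 0 < (p * (1 - p)) ^ R := by positivity
  constructor <;> linarith

/-- Many good sets with the same difference. -/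
theorem many_good (h0 : 0 < p) (h1 : p < 1) {r R D L : ℕ} (hr : r ≤ R) (hR : 1 ≤ R)
    (J : ℕ → Finset ℕ) (hJ : ∀ i < L, Good r D (J i))
    (hdis : ∀ i < L, ∀ j < L, i ≠ j → Disjoint (J i) (J j)) {f : ℕ → ℝ} {b b' : ℝ}
    (hf : ∀ t, 0 ≤ f t) (hb : ∀ t, f t ≤ b) (hp : ∀ t, f t + f (t + D) ≤ 2 * b') (t : ℕ) :
    T p ((range L).biUnion J) f t ≤ (1 - 2 * (p * (1 - p)) ^ R) ^ L * b + b' := by
  obtain ⟨hη0, hη1⟩ := eta_bounds h0 h1 hR
  set η := 1 - 2 * (p * (1 - p)) ^ R with hη
  have hb0 : 0 ≤ b := (hf 0).trans (hb 0)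
  have hb'0 : 0 ≤ b' := by
    have := hp 0
    have := hf 0
    have := hf (0 + D)
    linarith
  by_cases hbb : b' ≤ b
  · have key : ∀ l ≤ L, ∀ t, T p ((range l).biUnion J) f t ≤ η ^ l * b + (1 - η ^ l) * b' := by
      intro l
      induction l with
      | zero =>
        intro _ t
        simp only [range_zero, biUnion_empty, T_empty, pow_zero]
        linarith [hb t]
      | succ l ih =>
        intro hl t
        have ih' := ih (by omega)
        have hd : Disjoint (J l) ((range l).biUnion J) := by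
          rw [disjoint_biUnion_right]
          intro i hi
          rw [mem_range] at hi
          exact hdis l (by omega) i (by omega) (by omega)
        rw [range_add_one, biUnion_insert, T_union p hd]
        have hηl : 0 ≤ η ^ l := pow_nonneg hη0 _
        have hηl1 : η ^ l ≤ 1 := pow_le_one₀ hη0 hη1
        have h2 := one_good h0 h1 hr (hJ l (by omega)) (f := T p ((range l).biUnion J) f) ih'
          (by nlinarith) (T_pair h0.le h1.le _ hp) t
        refine h2.trans (le_of_eq ?_)
        rw [pow_succ]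
        have h3 : 2 * (p * (1 - p)) ^ R = 1 - η := by rw [hη]; ring
        rw [h3]
        ring
    have h2 := key L le_rfl t
    have h3 : 0 ≤ η ^ L := pow_nonneg hη0 _
    nlinarith
  · push Not at hbb
    have h2 := T_le h0.le h1.le ((range L).biUnion J) hb t
    have h3 : 0 ≤ η ^ L := pow_nonneg hη0 _
    nlinarith

/-- The window sums. -/
noncomputable def Wd (k : ℕ) (f : ℕ → ℝ) (t : ℕ) : ℝ := ∑ j ∈ range (2 ^ k), f (t + j)

theorem Wd_succ (k : ℕ) (f : ℕ → ℝ) (t : ℕ) :
    Wd (k + 1) f t = Wd k f t + Wd k f (t + 2 ^ k) := by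
  unfold Wd
  rw [pow_succ, mul_two, sum_range_add]
  congr 1
  refine sum_congr rfl fun j _ => ?_
  rw [add_assoc]

theorem Wd_T (p : ℝ) (k : ℕ) (I : Finset ℕ) (f : ℕ → ℝ) (t : ℕ) :
    Wd k (T p I f) t = T p I (Wd k f) t := by
  unfold Wd T
  rw [Ex_sum]
  refine sum_congr rfl fun j _ => ?_
  refine Ex_congr fun F _ => ?_
  congr 1
  ring

theorem Wd_bounds (k : ℕ) {f : ℕ → ℝ} {b : ℝ} (hf : ∀ t, 0 ≤ f t) (hb : ∀ t, f t ≤ b) (t : ℕ) :
    0 ≤ Wd k f t ∧ Wd k f t ≤ 2 ^ k * b := by
  unfold Wd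
  constructor
  · exact sum_nonneg fun j _ => hf _
  · calc ∑ j ∈ range (2 ^ k), f (t + j) ≤ ∑ j ∈ range (2 ^ k), b := sum_le_sum fun j _ => hb _
      _ = 2 ^ k * b := by
          rw [sum_const, card_range, nsmul_eq_mul]
          push_cast
          ring

end

/-- The iterated averaging operators. -/
theorem scale : S_Scale := by
  intro p h0 h1 K L R U r J hr hJ hdis f b s hf hb hs t
  have hb0 : 0 ≤ b := (hf 0).trans (hb 0)
  by_cases hR : 1 ≤ R
  swap
  · -- all the sizes are zero, which is impossible unless there is nothing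
    have hR0 : R = 0 := by omega
    by_cases hKL : K = 0 ∨ L = 0
    · rcases hKL with rfl | rfl
      · have h2 := T_le h0.le h1.le U (f := f) (c := s) (fun t => by
          have := hs t
          simpa using this) t
        simpa using h2
      · have h2 := T_le h0.le h1.le U hb t
        have hs0 : 0 ≤ s := (sum_nonneg fun j _ => hf _).trans (hs 0)
        rcases Nat.eq_zero_or_pos K with hK | hK
        · subst hK
          have h3 := T_le h0.le h1.le U (f := f) (c := s) (fun t => by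
            have := hs t
            simpa using this) t
          simpa using h3
        · have hK1 : (1 : ℝ) ≤ K := by exact_mod_cast hK
          have h4 : 0 ≤ s / 2 ^ K := by positivity
          rw [pow_zero, mul_one]
          nlinarith
    · push Not at hKL
      exfalso
      obtain ⟨_, hg⟩ := hJ 0 (by omega) 0 (by omega)
      have hr0 : r 0 = 0 := by have := hr 0 (by omega); omega
      rw [hr0] at hg
      obtain ⟨-, F, -, F', -, hne, hc, hc', -⟩ := hg
      rw [card_eq_zero] at hc hc'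
      exact hne (hc.trans hc'.symm)
  obtain ⟨hη0, hη1⟩ := eta_bounds h0 h1 hR
  set η := 1 - 2 * (p * (1 - p)) ^ R with hη
  set D : ℕ → Finset ℕ := fun k => (range L).biUnion (J k) with hD
  set I : ℕ → Finset ℕ := fun m => (Ico (K - m) K).biUnion D with hI
  have key : ∀ m ≤ K, ∀ t, Wd (K - m) (T p (I m) f) t
      ≤ m * η ^ L * 2 ^ (K - m) * b + s / 2 ^ m := by
    intro m
    induction m with
    | zero =>
      intro _ t
      have h2 : I 0 = ∅ := by simp [hI]
      have h3 : T p (I 0) f = f := by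
        funext t
        rw [h2, T_empty]
      rw [h3]
      have := hs t
      simpa [Wd] using this
    | succ m ih =>
      intro hm t
      obtain ⟨k, hk⟩ : ∃ k, K - m = k + 1 := ⟨K - m - 1, by omega⟩
      have hk' : K - (m + 1) = k := by omega
      have hkK : k < K := by omega
      have ih' := ih (by omega)
      rw [hk] at ih'
      rw [hk']
      have hIs : I (m + 1) = D k ∪ I m := by
        simp only [hI]
        rw [hk', hk, ← Finset.insert_Ico_add_one_left_eq_Ico hkK, biUnion_insert]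
      have hdisj : Disjoint (D k) (I m) := by
        simp only [hI, hD]
        rw [disjoint_biUnion_left]
        intro i hi
        rw [disjoint_biUnion_right]
        intro k' hk'
        rw [disjoint_biUnion_right]
        intro i' hi'
        rw [mem_range] at hi hi'
        rw [hk, mem_Ico] at hk'
        apply hdis k hkK i hi k' hk'.2 i' hi'
        intro h
        have := (Prod.mk.inj h).1
        omega
      have h2 : T p (I (m + 1)) f = T p (D k) (T p (I m) f) := by
        funext t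
        rw [hIs, T_union p hdisj]
      rw [h2, Wd_T]
      have hF0 : ∀ t, 0 ≤ T p (I m) f t := T_nonneg h0.le h1.le _ hf
      have hFb : ∀ t, T p (I m) f t ≤ b := T_le h0.le h1.le _ hb
      have h3 := many_good h0 h1 (hr k hkK) hR (J k) (fun i hi => (hJ k hkK i hi).2)
        (fun i hi j hj hij => hdis k hkK i hi k hkK j hj (fun h => hij (Prod.mk.inj h).2))
        (f := Wd k (T p (I m) f)) (b := 2 ^ k * b)
        (b' := (m * η ^ L * 2 ^ (k + 1) * b + s / 2 ^ m) / 2)
        (fun t => (Wd_bounds k hF0 hFb t).1) (fun t => (Wd_bounds k hF0 hFb t).2)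
        (fun t => by rw [← Wd_succ]; have := ih' t; linarith) t
      refine h3.trans (le_of_eq ?_)
      push_cast
      rw [pow_succ, pow_succ]
      field_simp
      ring
  have hfin := key K le_rfl
  simp only [Nat.sub_self, Wd, pow_zero, mul_one, range_one, sum_singleton, add_zero] at hfin
  have hIU : I K ⊆ U := by
    simp only [hI, hD]
    intro x hx
    rw [mem_biUnion] at hx
    obtain ⟨k, hk, hx⟩ := hx
    rw [mem_biUnion] at hx
    obtain ⟨i, hi, hx⟩ := hx
    rw [mem_range] at hi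
    rw [mem_Ico] at hk
    exact (hJ k hk.2 i hi).1 hx
  have hU : U = (U \ I K) ∪ I K := (sdiff_union_of_subset hIU).symm
  rw [hU, T_union p (sdiff_disjoint)]
  exact T_le h0.le h1.le _ hfin t

end Q224.RC
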