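import Mathlib
theorem foo : 1 + 1 = 2 := rfl
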